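import Mathlib
import Pool.Agent.Run7.h988.PY.Ord

/-!
# The parity conjecture for base changes of Hilbert modular forms

`F'/F` is a finite Galois extension of totally real fields with group `G`, `g` a Hilbert modular form over `F` as
in the question, `V = V_{g,λ}`. The theorem compares the parity conjecture for the base changes of `g` to the
intermediate fields of `F'/F`.
-/

set_option autoImplicit false

namespace Pool.Agent.Results.MP_d4aa36_nt.BaseChanges

open Pool.Agent.H541R3.ART Run7.h988.PY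

/-- The Bloch-Kato Selmer groups and the L-functions of `V = V_{g,λ}`, with coefficients in the field `E = E_λ`,
along a finite Galois extension `F'/F` of totally real fields with group `G`; the subgroup `H` stands for the
intermediate field `F'^H`. -/
structure Form (E : Type) [Field E] (G : Type) [Group G] [Finite G] (X : Type) [AddCommGroup X] [Module E X] where
  /-- the representation of `G` on `X = H¹_f(F', V)` -/
  ρ : Representation E G X
  /-- `X` is self-dual -/
  selfdual : ∀ g, ρ.character g⁻¹ = ρ.character g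
  /-- the L-functions `L(V ⊗ χ, s)` over `F` of the twists by the irreducible characters of `G` -/
  L : (G → ℂ) → ℂ → ℂ
  /-- the L-functions `L(V, s)` of `V` over `F'^H` -/
  LF : Subgroup G → ℂ → ℂ
  /-- the twisted L-functions are meromorphic at the centre `0` and not identically zero -/
  mero : ∀ χ ∈ Irr G, MeromorphicAt (L χ) 0 ∧ meromorphicOrderAt (L χ) 0 ≠ ⊤
  /-- functional equation: the twists by `χ` and by its complex conjugate have the same order at `0` -/
  dual : ∀ χ ∈ Irr G,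
    meromorphicOrderAt (L (fun g => (starRingEnd ℂ) (χ g))) 0 = meromorphicOrderAt (L χ) 0
  /-- Artin formalism: `L(V, s)` over `F'^H` is the product of the `L(V ⊗ χ, s)` to the power the dimension of
  the space of `H`-invariants of `χ` -/
  artin : ∀ H : Subgroup G, ∀ m : (G → ℂ) → ℕ,
    (∀ χ ∈ Irr G, (m χ : ℂ) = (Nat.card H : ℂ)⁻¹ * ∑ᶠ h : H, χ h) → LF H = fun s => ∏ᶠ χ ∈ Irr G, L χ s ^ m χ

variable {E : Type} [Field E] {G : Type} [Group G] [Finite G] {X : Type} [AddCommGroup X] [Module E X]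

/-- the dimension of `H¹_f(F'^H, V)`, which is the space of `H`-invariants of `H¹_f(F', V)` -/
noncomputable def Form.selmer (S : Form E G X) (H : Subgroup G) : ℕ :=
  Module.finrank E (Representation.invariants (S.ρ.comp H.subtype))

/-- the parity conjecture for the base change to `F'^H`: the dimension of the Selmer group and the order of
vanishing at the centre have the same parity -/
def Form.Parity (S : Form E G X) (H : Subgroup G) : Prop :=
  ∃ z : ℤ, meromorphicOrderAt (S.LF H) 0 = z ∧ Even (z - S.selmer H)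

/-- `k` is a multiplier: the character of `H¹_f(F', V)` has the same value at `g` and `g ^ k`, and for a real valued
character `χ` the orders of vanishing for `χ` and its conjugate `g ↦ χ (g ^ k)` have the same parity -/
def Form.Mult (S : Form E G X) (k : ℕ) : Prop :=
  Nat.Coprime (Nat.card G) k ∧ (∀ g, S.ρ.character (g ^ k) = S.ρ.character g) ∧
    ∀ χ ∈ Irr G, (∀ g, (starRingEnd ℂ) (χ g) = χ g) →
      Even ((meromorphicOrderAt (S.L (fun g => χ (g ^ k))) 0).untop₀ - (meromorphicOrderAt (S.L χ) 0).untop₀)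

/-- **Parity for base changes.** -/
theorem result [FiniteDimensional E X] (τ : E →+* ℂ) (S : Form E G X) :
    (∀ (N : Subgroup G) [N.Normal] (a k : ℕ), Group.IsSolvable N →
      (∀ g : G, (∃ b : ℕ, g ^ 2 ^ b = 1) → ∀ n ∈ N, g ^ 2 ^ a * n = n * g ^ 2 ^ a) → S.Mult k →
      (∀ q : ℕ, q.Prime → q ∣ Nat.card N → 2 ^ (a + 1) ∣ orderOf (k : ZMod q)) →
      (∀ H : Subgroup G, S.Parity H ↔ S.Parity (H ⊔ N)) ∧
      (⁅(⊤ : Subgroup G), ⊤⁆ ≤ N → S.Parity ⊤ → (∀ H : Subgroup G, H.index = 2 → S.Parity H) →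
        ∀ H : Subgroup G, S.Parity H)) ∧
    (¬ S.Parity ⊤ →
      (∃ U C : Subgroup G, ¬ S.Parity U ∧ (∀ U' : Subgroup G, U' < U → S.Parity U') ∧
        C ≤ U ∧ IsCyclic C ∧ Odd (Nat.card C) ∧ (∀ u ∈ U, ∀ c ∈ C, u * c * u⁻¹ ∈ C) ∧
        (∀ u ∈ U, ∃ j : ℕ, u ^ 2 ^ j ∈ C) ∧
        ∀ q : ℕ, q.Prime → q ∣ Nat.card C → ∀ k : ℕ, S.Mult k →
          ∃ m : ℕ, Odd m ∧ ∃ u ∈ U, ∀ c ∈ C, c ^ q = 1 → u * c * u⁻¹ = c ^ k ^ m) ∧
      ∀ a : ℕ, (∀ g : G, (∃ b : ℕ, g ^ 2 ^ b = 1) → g ^ 2 ^ a = 1) →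
        (∀ q : ℕ, q.Prime → q ≠ 2 → q ∣ Nat.card G → ∃ k : ℕ, S.Mult k ∧ 2 ^ (a + 1) ∣ orderOf (k : ZMod q)) →
        ∃ U : Subgroup G, IsPGroup 2 U ∧ ¬ S.Parity U ∧ ∀ U' : Subgroup G, U' < U → S.Parity U') := by
  classical
  let w : (G → ℂ) → ℂ := fun χ => (-1) ^ ordz 0 (S.L χ)
  let D : G → ℂ := fun g => τ (S.ρ.character g) + Dw w g
  have hpar : ∀ H : Subgroup G, S.Parity H ↔ Ev D H := fun H =>
    parity_ord τ S.ρ S.L 0 S.mero S.dual H (S.LF H) (S.artin H)
  have hD : Pool.Agent.W446.AS.Virt D := by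
    have h1 : D = (fun g => τ (S.ρ.character g)) + Dw w := rfl
    rw [h1]
    exact add_mem (virt_char τ S.ρ) (virt_Dw w)
  have hDk : ∀ k : ℕ, S.Mult k → ∀ g, D (g ^ k) = D g := by
    intro k hk g
    change τ (S.ρ.character (g ^ k)) + Dw w (g ^ k) = _
    rw [hk.2.1, Dw_pow w hk.1 (fun χ hχ hre => neg_zpow_even (hk.2.2 χ hχ hre))]
  have hinv : ∀ g, D g⁻¹ = D g := by
    intro g
    obtain ⟨n, hn⟩ : ∃ n, Nat.card G = n + 1 := ⟨_, (Nat.succ_pred_eq_of_pos Nat.card_pos).symm⟩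
    have h1 : ∀ g : G, g ^ n = g⁻¹ := fun g => by
      rw [eq_inv_iff_mul_eq_one, ← pow_succ, ← hn, pow_card_eq_one']
    have h2 : Nat.Coprime (Nat.card G) n := by
      rw [hn]
      exact Nat.coprime_self_add_left.mpr (Nat.coprime_one_left n) |>.symm |>.symm
    have h3 : S.Mult n := by
      refine ⟨h2, fun g => by rw [h1, S.selfdual], fun χ hχ hre => ?_⟩
      have h4 : (fun g => χ (g ^ n)) = fun g => (starRingEnd ℂ) (χ g) := by
        funext g
        rw [h1, irr_inv hχ]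
      rw [h4, S.dual χ hχ, sub_self]
      exact Even.zero
    rw [← h1, hDk n h3]
  refine ⟨?_, fun hE => ?_⟩
  · intro N _ a k hsol ha hk hq
    refine ⟨fun H => ?_, fun hab h1 h2 H => ?_⟩
    · rw [hpar, hpar]
      exact tower_ev hD N hsol a k ha hk.1 (hDk k hk) hq H
    · rw [hpar]
      exact abelian_base hD N hsol hab a k ha hk.1 (hDk k hk) hinv hq ((hpar ⊤).mp h1)
        (fun U hU => (hpar U).mp (h2 U hU)) H
  have h0 : ¬ Ev D ⊤ := fun h => hE ((hpar ⊤).mpr h)
  refine ⟨?_, ?_⟩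
  · obtain ⟨U, ⟨C, hCU, hC, hcop, hnorm, hpow⟩, hodd, hmin, hcrit⟩ := crit hD h0
    refine ⟨U, C, fun h => hodd ((hpar U).mp h), fun U' hU' => (hpar U').mpr (hmin U' hU'), hCU, hC,
      Nat.coprime_two_right.mp hcop, hnorm, hpow, ?_⟩
    intro q hq hqC k hk
    have hq2 : q ≠ 2 := by
      rintro rfl
      have h1 := Nat.dvd_gcd hqC dvd_rfl
      rw [hcop] at h1
      exact absurd (Nat.le_of_dvd one_pos h1) (by norm_num)
    obtain ⟨m, hm, u, hu, huc⟩ := hcrit k hk.1 (hDk k hk) q hq hq2 (hqC.trans (Subgroup.card_dvd_of_le hCU))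
    exact ⟨m, hm, u, hu, fun c hc hcq => huc c (hCU hc) hcq⟩
  · intro a ha hq
    obtain ⟨U, hU, hodd, hmin⟩ := crit_two hD h0 a ha (fun q hq1 hq2 hq3 => by
      obtain ⟨k, hk, hord⟩ := hq q hq1 hq2 hq3
      exact ⟨k, hk.1, hDk k hk, hord⟩)
    exact ⟨U, hU, fun h => hodd ((hpar U).mp h), fun U' hU' => (hpar U').mpr (hmin U' hU')⟩

end Pool.Agent.Results.MP_d4aa36_nt.BaseChanges
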