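import Pool.Agent.Results.MP_787500_nt.AllWeightsMultiquadraticX49
import Pool.Agent.Results.MP_6e2fc3_nt.CMFormsAllWeights
import Pool.Agent.Results.MP_d4aa36_nt.InfiniteTowersCMForms
import Pool.Agent.Run7.h359.Nf
import Pool.Agent.Run7.h359.Lfw
import Pool.Agent.Run7.h359.Twr

/-!
# Both sides of the parity conjecture at `p = 2` for the CM forms of all weights `2k`, `k` odd, over
# infinite towers of totally real fields

Let `E_M` be the quadratic twist by `M` of `X_0(49)`, `ψ_M` its Hecke character over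
`K = ℚ(√-7) = ℚ(w)`, `w² = w - 2`, and let `F = ℚ(√D_0, …, √D_{n-1})`, a totally real field. For every
odd `k > 0` the newform of `ψ_M^{2k-1}` has a base change to `F`, a Hilbert modular newform `g` of
parallel weight `2k` with trivial central character and rational eigenvalues.

* The Euler factor of `L(g, s - k)` at the place `v` of `F` is
  `1 / ((1 - α^{2k-1} q^{-s}) (1 - β^{2k-1} q^{-s}))`, where `(1 - α T) (1 - β T)` is the local
  polynomial of `E_M` at `v` (of Mathlib) and `q` is the norm of `v`. The central point `0` of `L(g, s)`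
  corresponds to `s = k`.
* The Galois representation `V_g` at the prime `2` is the restriction to `Gal(ℚ̄/F)` of the
  representation of `Gal(ℚ̄/ℚ)` induced from the character `κ^k κ'^(1-k)` of `Gal(ℚ̄/K)`; here `κ`, `κ'`
  are the characters by which `Gal(ℚ̄/K)` acts on the `2`-adic Tate module of `E_M`.

The class consists of the squarefree `M = 1 mod 8` with all prime factors `1 mod 4`. Theorem: for
**every** `M` of the class such that `E_M(ℚ)` is finite and `Ш(E_M/ℚ)` has no element of order two there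
is an infinite sequence `D_0, D_1, …` of members of the class such that, for all `n`, the field
`F_n = ℚ(√D_0, …, √D_{n-1})` has degree `2^n`, and for the forms `g` over `F_n` of **all** the weights
`2k`, `k` odd, the `L`-function is entire, its order at the centre is zero, and `H¹_f(F_n, V_g) = 0`. So
both sides of the parity conjecture are equal to zero. There are at least `a X / √(log X)` such `M ≤ X`,
`a > 0`, which is the order of magnitude of the class (Landau), and in the subclass of the numbers with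
prime factors `1 mod 8` and split in `K` or `5 mod 8` and inert in `K` the lower proportion of them is at
least `c = 0.419…`.

The starting file `MP_d4aa36_nt/InfiniteTowersCMForms` has the Selmer groups, for towers of the subclass
and for a proportion of the `M`. New are the class, every good `M`, and the `L`-functions: the Euler
product over the places of `F_n`, its continuation, and the central values for all odd `k` (before, only
the root numbers were known to be `1`). The proof is in `Run7/h359`; the method is described in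
`MP_6e2fc3_nt/OddWeightsRankFormula`. The decomposition of the primes in `F` is from `Run7/h401/MQ`
(helper401).
-/

set_option autoImplicit false

namespace Pool.Agent.Results.MP_d4aa36_nt.TowersBothSides

open Pool.Agent.Results.MP_787500_nt.AllWeightsMultiquadraticX49
open Pool.Agent.Results.MP_6e2fc3_nt.CMFormsAllWeights
open NumberField IsDedekindDomain WeierstrassCurve Filter Topology
open scoped Classical

/-! ### The `L`-functions -/

/-- `α ^ n + β ^ n`, where `α + β = a` and `α β = e`. -/
def powerSum (a e : ℤ) : ℕ → ℤ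
  | 0 => 2
  | 1 => a
  | n + 2 => a * powerSum a e (n + 1) - e * powerSum a e n

/-- The local polynomial `1 - a T + e T² = (1 - α T) (1 - β T)` of the curve `W` over the number field
`F` at the place `v`: at the places of good reduction `e` is the norm `q` of `v` and
`a = q + 1 - #W(k_v)`, and the polynomial is `1` at the places of additive reduction. -/
noncomputable def localPoly {F : Type} [Field F] [NumberField F] (W : WeierstrassCurve F)
    (v : HeightOneSpectrum (𝓞 F)) : Polynomial ℤ :=
  (W.baseChange (v.adicCompletion F)).localPolynomial (v.adicCompletionIntegers F)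

/-- The Euler factor `1 / ((1 - α ^ n q^{-s}) (1 - β ^ n q^{-s}))`, where `(1 - α T) (1 - β T)` is the
local polynomial of the curve `W` at the place `v` of norm `q`. -/
noncomputable def factor {F : Type} [Field F] [NumberField F] (W : WeierstrassCurve F) (n : ℕ) (s : ℂ)
    (v : HeightOneSpectrum (𝓞 F)) : ℂ :=
  (1 - (powerSum (-(localPoly W v).coeff 1) ((localPoly W v).coeff 2) n : ℂ) *
      (Ideal.absNorm v.asIdeal : ℂ) ^ (-s) +
    ((localPoly W v).coeff 2 : ℂ) ^ n * ((Ideal.absNorm v.asIdeal : ℂ) ^ (-s)) ^ 2)⁻¹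

/-- `Λ` is the entire continuation of the `L`-function over `F` of the newform of weight `2k` that belongs
to the curve `W` with complex multiplication: the Euler product over the places of `F` with the factors
`factor W (2k-1) s` converges to `Λ(s)` for `Re s > k + 1/2`. The centre is `s = k`. -/
def IsLFunction {F : Type} [Field F] [NumberField F] (W : WeierstrassCurve F) (k : ℕ)
    (Λ : ℂ → ℂ) : Prop :=
  Differentiable ℂ Λ ∧
    ∀ s : ℂ, (k : ℝ) + 1 / 2 < s.re → HasProd (factor W (2 * k - 1) s) (Λ s)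

/-- The field `F = ℚ(s_1, …, s_n)`. -/
noncomputable abbrev Fld {n : ℕ} (s : Fin n → QBar) : IntermediateField ℚ QBar :=
  IntermediateField.adjoin ℚ (Set.range s)

instance numField {n : ℕ} (s : Fin n → QBar) : NumberField (Fld s) := Run7.h359.FE.nf_adj s

/-- The curve `E_M` over `F = ℚ(s_1, …, s_n)`. -/
noncomputable def EF {n : ℕ} (s : Fin n → QBar) (M : ℕ) : WeierstrassCurve (Fld s) :=
  (E M).map (algebraMap ℚ (Fld s))

/-! ### The class -/

/-- The class: `D = 1 mod 8` is squarefree, and all its prime factors are `1 mod 4`. -/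
def Wide (D : ℕ) : Prop := Squarefree D ∧ D % 8 = 1 ∧ ∀ p : ℕ, p.Prime → p ∣ D → p % 4 = 1

/-- For large `X` at least `a X / √(log X)` of the `D ≤ X` of the class have the property `P`,
with a constant `a > 0`. -/
def OfOrder (P : ℕ → Prop) : Prop := ∃ (a : ℝ) (X₀ : ℕ), 0 < a ∧ ∀ X : ℕ, X₀ ≤ X →
  a * X / Real.sqrt (Real.log X) ≤ (((Finset.Icc 1 X).filter fun D => Wide D ∧ P D).card : ℝ)

/-! ### The formula -/

/-- Both sides of the parity conjecture for the form `g` of parallel weight `2k` over
`F = ℚ(s_1, …, s_n)` and `p = 2` are zero: the `L`-function over `F` has an entire continuation `Λ` of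
order zero at the centre `k`, and `H¹_f(F, V)` is zero for the representation `V` induced from the
character `κ^k κ'^(1-k)`. -/
def BothZero (M : ℕ) {w : QBar} {n : ℕ} (s : Fin n → QBar) (κ κ' : Chr w) (k : ℕ) : Prop :=
  (∃ Λ : ℂ → ℂ, IsLFunction (EF s M) k Λ ∧ analyticOrderAt Λ k = 0) ∧
    ∀ c₀ : GQ, c₀ w = 1 - w → Zero s (chi κ κ' k) c₀

/-- For **all** odd `k > 0` both sides are zero for `p = 2` and the form of weight `2k` over
`F = ℚ(√d_1, …, √d_n)`: the curve `E_M` is over `K = ℚ(w)` isomorphic to the elliptic curve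
`ED w (tw M)`, the absolute Galois group of `K` acts on its `2`-adic Tate module by `κ`, `κ'`, and both
sides are zero for the `L`-functions and the representations made from these. -/
def AllOddWeights (M : ℕ) {n : ℕ} (d : Fin n → ℕ) : Prop := ∀ w : QBar, w ^ 2 = w - 2 →
  Iso (EK w M) (ED w (tw M)) ∧ (ED w (tw M)).IsElliptic ∧
  ∃ κ κ' : Chr w, TateModule (tw M) κ κ' ∧
    ∀ s : Fin n → QBar, (∀ i, s i ^ 2 = (d i : QBar)) → ∀ k : ℕ, Odd k → BothZero M s κ κ' k

/-- There is an infinite sequence `D_0, D_1, …` of members of the class such that for all `n` the field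
`F_n = ℚ(√D_0, …, √D_{n-1})` has degree `2 ^ n` (no product of some of the `D_i` is a square), and both
sides are zero for the forms over `F_n` of all the weights `2k`, `k` odd. -/
def InfiniteTower (M : ℕ) : Prop :=
  ∃ D : ℕ → ℕ, (∀ i, Wide (D i)) ∧
    ∀ n : ℕ, Ind (fun i : Fin n => D i) ∧ AllOddWeights M (fun i : Fin n => D i)

section proof

open Pool.Agent.W189.NF Pool.Agent.H921R2.TatePole

lemma powerSum_pw (a e : ℤ) : ∀ n : ℕ, ((powerSum a e n : ℤ) : ℂ) = W165.CE.pw (a : ℂ) (e : ℂ) n
  | 0 => by simp [powerSum, W165.CE.pw]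
  | 1 => by simp [powerSum, W165.CE.pw]
  | n + 2 => by
    rw [powerSum, W165.CE.pw, ← powerSum_pw a e (n + 1), ← powerSum_pw a e n]
    push_cast
    ring

lemma coeffs {F : Type} [Field F] [NumberField F] (W : WeierstrassCurve F)
    (v : HeightOneSpectrum (𝓞 F)) :
    (localPoly W v).coeff 1 = -aV W v ∧ (localPoly W v).coeff 2 = eV W v := by
  unfold localPoly aV eV
  rw [localPolynomial_eq]
  constructor
  · rw [Polynomial.coeff_add, Polynomial.coeff_sub, Polynomial.coeff_C_mul, Polynomial.coeff_C_mul,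
      Polynomial.coeff_X, Polynomial.coeff_X_pow, Polynomial.coeff_one]
    norm_num
  · rw [Polynomial.coeff_add, Polynomial.coeff_sub, Polynomial.coeff_C_mul, Polynomial.coeff_C_mul,
      Polynomial.coeff_X, Polynomial.coeff_X_pow, Polynomial.coeff_one]
    norm_num

lemma factor_eq {F : Type} [Field F] [NumberField F] (W : WeierstrassCurve F) (n : ℕ) (s : ℂ) :
    factor W n s = Run7.h359.FE.facF W n s := by
  funext v
  unfold factor Run7.h359.FE.facF
  rw [(coeffs W v).1, (coeffs W v).2, neg_neg, powerSum_pw]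
  rfl

/-- the central values -/
theorem lfun {M n : ℕ} {d : Fin n → ℕ} (hG : Run7.h359.WD.GoodW M d) {s : Fin n → QBar}
    (hs : ∀ i, s i ^ 2 = (d i : QBar)) {k : ℕ} (hk : Odd k) :
    ∃ Λ : ℂ → ℂ, IsLFunction (EF s M) k Λ ∧ Λ k ≠ 0 := by
  obtain ⟨Λ, g1, g2, g3⟩ := Run7.h359.FW.lfieldW (F := Fld s) hG
    (s := fun i => ⟨s i, IntermediateField.subset_adjoin ℚ _ ⟨i, rfl⟩⟩) (fun i => by
      apply Subtype.ext
      push_cast
      exact hs i) (Run7.h359.FE.gen_adj s) hk
  refine ⟨Λ, ⟨g1, fun z hz => ?_⟩, g3⟩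
  rw [factor_eq]
  unfold EF
  rw [Run7.h359.FE.E_cur]
  exact g2 z hz

theorem all_formulas {M n : ℕ} {d : Fin n → ℕ} (hG : Run7.h359.WD.GoodW M d) : AllOddWeights M d := by
  intro w hw
  obtain ⟨h1, h2, κ, κ', h3, h4⟩ := Run7.h359.WD.all_ofW hG hw
  refine ⟨h1, h2, κ, κ', h3, fun s hs k hk => ?_⟩
  obtain ⟨h5, -⟩ := h4 s hs
  have hkp : (0 : ℤ) < (k : ℤ) := by exact_mod_cast hk.pos
  have hko : Odd (k : ℤ) := by exact_mod_cast hk
  obtain ⟨Λ, h7, h8⟩ := lfun hG hs hk
  exact ⟨⟨Λ, h7, analyticOrderAt_eq_zero.2 (Or.inr h8)⟩,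
    fun c₀ hc₀ => zero_of hw hc₀ hs (h5 k hkp hko).1⟩

theorem wide_of_adm {D : ℕ} (h : Adm D) : Wide D :=
  ⟨h.1, h.2.1, fun p hp hd => by rcases h.2.2 p hp hd with h | h <;> omega⟩

theorem ofOrder_of {P : ℕ → Prop} {a : ℝ} {X₀ : ℕ} (ha : 0 < a) {G : ℕ → Finset ℕ}
    (h : ∀ X : ℕ, X₀ ≤ X → a * X / Real.sqrt (Real.log X) ≤ ((G X).card : ℝ))
    (hG : ∀ X D, D ∈ G X → D ∈ Finset.Icc 1 X ∧ Wide D ∧ P D) : OfOrder P := by
  refine ⟨a, X₀, ha, fun X hX => (h X hX).trans (Nat.cast_le.2 (Finset.card_le_card fun D hD => ?_))⟩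
  rw [Finset.mem_filter]
  exact hG X D hD

lemma of_good {D : ℕ} (hD : Adm D) (h : Good D (fun i : Fin 0 => i.elim0)) : RankZeroShaTwo D := by
  obtain ⟨D', k, hk, h1, h2, h3⟩ := h ∅
  rw [Finset.prod_empty, mul_one] at h3
  have h4 : k = 1 := by
    have h5 : k * k ∣ D := by
      rw [h3, pow_two]
      exact Dvd.intro_left _ rfl
    exact Nat.isUnit_iff.1 (hD.1 k h5)
  rw [h4, one_pow, mul_one] at h3
  rw [h3]
  exact h2

lemma prop_le {P P' : ℕ → Prop} (h : ∀ D, Adm D → P D → P' D) (X : ℕ) : prop P X ≤ prop P' X := by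
  unfold prop
  refine div_le_div_of_nonneg_right (Nat.cast_le.2 (Finset.card_le_card fun D hD => ?_))
    (Nat.cast_nonneg _)
  rw [Finset.mem_filter] at hD ⊢
  exact ⟨hD.1, hD.2.1, h D hD.2.1 hD.2.2⟩

theorem tower_of {M : ℕ} (hM : Wide M) (hR : RankZeroShaTwo M) : InfiniteTower M := by
  obtain ⟨D, h1, h2⟩ := Run7.h359.TW.exists_tower hM hR
  exact ⟨D, h1, fun n => ⟨(h2 n).1, all_formulas (h2 n).2⟩⟩

end proof

/-- **Both sides of the parity conjecture over infinite towers, for all the odd weights.** -/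
theorem result :
    (∀ M : ℕ, Wide M → RankZeroShaTwo M → InfiniteTower M) ∧
    OfOrder (fun M => RankZeroShaTwo M ∧ InfiniteTower M) ∧
    AtLeast c (fun M => RankZeroShaTwo M ∧ InfiniteTower M) ∧ 0.4194 < c ∧ c < 0.4195 := by
  obtain ⟨-, -, -, h4, h5⟩ := Pool.Agent.Results.MP_787500_nt.AllWeightsMultiquadraticX49.result
  refine ⟨fun M h1 h2 => tower_of h1 h2, ?_, ?_, h4, h5⟩
  · obtain ⟨a, X₀, ha, h⟩ := Run7.h359.CT.cnt
    refine ofOrder_of ha h fun X D hD => ?_
    rw [Finset.mem_filter] at hD
    exact ⟨hD.1, hD.2.1, hD.2.2, tower_of hD.2.1 hD.2.2⟩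
  · have hA1 : Adm 1 := ⟨squarefree_one, rfl, fun p hp h => absurd (Nat.dvd_one.1 h) hp.ne_one⟩
    have hI : Ind (fun i : Fin 0 => i.elim0) := by
      rintro T ⟨i, -⟩
      exact i.elim0
    intro x hx
    have h := Pool.Agent.Results.MP_d4aa36_nt.InfiniteTowersCMForms.prop_good (n := 0) hA1
      (fun i => i.elim0) hI (x := x) (by simpa using hx)
    refine h.mono fun X hX => lt_of_lt_of_le hX (prop_le (fun D g1 g2 => ?_) X)
    rw [one_mul] at g2
    exact ⟨of_good g1 g2, tower_of (wide_of_adm g1) (of_good g1 g2)⟩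

end Pool.Agent.Results.MP_d4aa36_nt.TowersBothSides
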